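import Pool.Agent.Q83.SG.Stm

set_option autoImplicit false

/-! Project SG: basic facts about the boundary of a finite set in the cubic lattice. -/

open Pool.Agent.Q83.SG

namespace Pool.Agent.Q239.SG

theorem mem_bd (D : Finset Pt) (a : Ed) : a ∈ bd D ↔ ¬ (a.1 ∈ D ↔ a.1 + un a.2 ∈ D) := by
  unfold bd
  rw [Finset.mem_filter, and_iff_right_iff_imp]
  intro h
  rw [Finset.mem_biUnion]
  obtain ⟨x, i⟩ := a
  simp only at h ⊢
  by_cases hx : x ∈ D
  · refine ⟨x, hx, ?_⟩
    rw [Finset.mem_biUnion]
    exact ⟨i, Finset.mem_univ _, by simp⟩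
  · have hy : x + un i ∈ D := by
      by_contra hy
      exact h ⟨fun h' => absurd h' hx, fun h' => absurd h' hy⟩
    refine ⟨x + un i, hy, ?_⟩
    rw [Finset.mem_biUnion]
    exact ⟨i, Finset.mem_univ _, by simp⟩

theorem un_same (i : Fin 3) : un i i = 1 := by simp [un]

theorem un_ne {i j : Fin 3} (h : j ≠ i) : un i j = 0 := by simp [un, h]

/-- a finite set is bounded in a coordinate -/
theorem exists_max (D : Finset Pt) (hD : D.Nonempty) (i : Fin 3) : ∃ x ∈ D, ∀ y ∈ D, y i ≤ x i :=
  Finset.exists_max_image D (fun x => x i) hD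

theorem exists_min (D : Finset Pt) (hD : D.Nonempty) (i : Fin 3) : ∃ x ∈ D, ∀ y ∈ D, x i ≤ y i :=
  Finset.exists_min_image D (fun x => x i) hD

/-- a finite set is determined by its boundary -/
theorem bd_inj {A B : Finset Pt} (h : bd A = bd B) : A = B := by
  have key : ∀ x : Pt, (x ∈ A ↔ x ∈ B) ∨ ¬ (symmDiff A B).Nonempty := by
    intro x
    by_contra hcon
    rw [not_or, not_not] at hcon
    obtain ⟨x₀, hx₀, hmax⟩ := exists_max (symmDiff A B) hcon.2 0
    have h1 := mem_bd A (x₀, 0)
    have h2 := mem_bd B (x₀, 0)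
    rw [h] at h1
    simp only at h1 h2
    have h3 : x₀ + un 0 ∈ symmDiff A B := by
      rw [Finset.mem_symmDiff] at hx₀ ⊢
      tauto
    have h4 := hmax _ h3
    rw [Pi.add_apply, un_same] at h4
    omega
  ext x
  rcases key x with h1 | h1
  · exact h1
  · rw [Finset.not_nonempty_iff_eq_empty, ← Finset.bot_eq_empty, symmDiff_eq_bot] at h1
    rw [h1]

theorem two_le {D : Finset Pt} (hD : D.Nonempty) : 2 ≤ (bd D).card := by
  obtain ⟨x, hx, hmax⟩ := exists_max D hD 0
  obtain ⟨y, hy, hmin⟩ := exists_min D hD 0
  have h1 : ((x, 0) : Ed) ∈ bd D := by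
    rw [mem_bd]
    intro h
    have h2 := hmax _ (h.1 hx)
    simp only [Pi.add_apply, un_same] at h2
    omega
  have h2 : ((y - un 0, 0) : Ed) ∈ bd D := by
    rw [mem_bd]
    intro h
    simp only [sub_add_cancel] at h
    have h2 := hmin _ (h.2 hy)
    simp only [Pi.sub_apply, un_same] at h2
    omega
  have h3 : ((x, 0) : Ed) ≠ (y - un 0, 0) := by
    intro h
    have h4 := congrArg (fun e : Ed => e.1 0) h
    simp only [Pi.sub_apply, un_same] at h4
    have h5 := hmax y hy
    omega
  have h4 : ({(x, 0), (y - un 0, 0)} : Finset Ed) ⊆ bd D := by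
    intro e he
    rw [Finset.mem_insert, Finset.mem_singleton] at he
    rcases he with rfl | rfl
    · exact h1
    · exact h2
  have h5 := Finset.card_le_card h4
  rwa [Finset.card_pair h3] at h5

/-- a change along an integer segment -/
theorem change (g : ℤ → Prop) {u v : ℤ} (hu : g u) (hv : ¬ g v) :
    ∃ t, min u v ≤ t ∧ t + 1 ≤ max u v ∧ ¬ (g t ↔ g (t + 1)) := by
  rcases lt_trichotomy u v with h | h | h
  · by_contra hcon
    push Not at hcon
    have h1 : ∀ k : ℕ, u + k ≤ v → g (u + k) := by
      intro k
      induction k with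
      | zero => intro _; simpa using hu
      | succ k ih =>
        intro hk
        push_cast at hk ⊢
        have h2 := hcon (u + k) (by omega) (by omega)
        rw [← add_assoc]
        exact h2.1 (ih (by omega))
    have h2 := h1 (v - u).toNat (by omega)
    have h3 : u + ((v - u).toNat : ℤ) = v := by omega
    rw [h3] at h2
    exact hv h2
  · rw [h] at hu
    exact absurd hu hv
  · by_contra hcon
    push Not at hcon
    have h1 : ∀ k : ℕ, v + k ≤ u → ¬ g (v + k) := by
      intro k
      induction k with
      | zero => intro _; simpa using hv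
      | succ k ih =>
        intro hk
        push_cast at hk ⊢
        have h2 := hcon (v + k) (by omega) (by omega)
        rw [← add_assoc]
        exact fun h3 => ih (by omega) (h2.2 h3)
    have h2 := h1 (u - v).toNat (by omega)
    have h3 : v + ((u - v).toNat : ℤ) = u := by omega
    rw [h3] at h2
    exact h2 hu

/-- a change along a segment in direction `i` -/
theorem change_seg (D : Finset Pt) (i : Fin 3) (p : Pt) {v : ℤ} (hp : p ∈ D)
    (hq : Function.update p i v ∉ D) : ∃ t, min (p i) v ≤ t ∧ t + 1 ≤ max (p i) v ∧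
      ((Function.update p i t, i) : Ed) ∈ bd D := by
  obtain ⟨t, h1, h2, h3⟩ := change (fun t => Function.update p i t ∈ D) (u := p i) (v := v)
    (by rw [Function.update_eq_self]; exact hp) hq
  refine ⟨t, h1, h2, ?_⟩
  rw [mem_bd]
  have h4 : Function.update p i t + un i = Function.update p i (t + 1) := by
    funext j
    by_cases hj : j = i
    · subst hj
      rw [Pi.add_apply, un_same, Function.update_self, Function.update_self]
    · rw [Pi.add_apply, un_ne hj, Function.update_of_ne hj, Function.update_of_ne hj, add_zero]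
  rw [h4]
  exact h3

theorem near_symm {a b : Ed} (h : Near a b) : Near b a := by
  intro j
  rw [abs_sub_comm]
  exact h j

theorem near_refl (a : Ed) : Near a a := by
  intro j
  simp

end Pool.Agent.Q239.SG
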