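import Pool.Agent.Q239.SG.ISO

set_option autoImplicit false

/-! Project SG, jobs CGDIFF, COARSE, SMALL: coarse graining. -/

open Pool.Agent.Q83.SG

namespace Pool.Agent.Q239.SG

theorem mem_cube (l : ℕ) (z x : Pt) : x ∈ cube l z ↔ idx l x = z := by
  unfold cube idx
  rw [Fintype.mem_piFinset, funext_iff]
  refine forall_congr' fun i => ?_
  rw [Finset.mem_Ico]
  have h : (0 : ℤ) < 2 ^ l := by positivity
  constructor
  · rintro ⟨h1, h2⟩
    apply le_antisymm
    · rw [← Int.lt_add_one_iff, Int.ediv_lt_iff_lt_mul h]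
      linarith
    · rw [Int.le_ediv_iff_mul_le h]
      linarith
  · intro h1
    rw [← h1]
    constructor
    · exact Int.mul_ediv_self_le h.ne'
    · have := Int.lt_mul_ediv_self_add (x := x i) h
      exact this

theorem card_cube (l : ℕ) (z : Pt) : (cube l z).card = 8 ^ l := by
  unfold cube
  rw [Fintype.card_piFinset]
  have h : ∀ i : Fin 3, (Finset.Ico (2 ^ l * z i) (2 ^ l * z i + 2 ^ l)).card = 2 ^ l := by
    intro i
    rw [Int.card_Ico]
    have : 2 ^ l * z i + 2 ^ l - 2 ^ l * z i = ((2 ^ l : ℕ) : ℤ) := by push_cast; ring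
    rw [this, Int.toNat_natCast]
  rw [Finset.prod_congr rfl fun i _ => h i, Finset.prod_const, Finset.card_univ, Fintype.card_fin,
    ← pow_mul, mul_comm l 3, pow_mul]
  norm_num

theorem mem_maj (l : ℕ) (D : Finset Pt) (z : Pt) :
    z ∈ maj l D ↔ 8 ^ l ≤ 2 * (D ∩ cube l z).card := by
  unfold maj
  rw [Finset.mem_filter, and_iff_right_iff_imp]
  intro h
  have h1 : (D ∩ cube l z).Nonempty := by
    rw [← Finset.card_pos]
    have : 0 < 8 ^ l := by positivity
    omega
  obtain ⟨x, hx⟩ := h1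
  rw [Finset.mem_inter, mem_cube] at hx
  exact Finset.mem_image.2 ⟨x, hx.1, hx.2⟩

theorem mem_cg (l : ℕ) (D : Finset Pt) (x : Pt) : x ∈ cg l D ↔ idx l x ∈ maj l D := by
  unfold cg
  rw [Finset.mem_biUnion]
  constructor
  · rintro ⟨z, hz, hx⟩
    rw [mem_cube] at hx
    rwa [hx]
  · intro h
    exact ⟨idx l x, h, (mem_cube l _ _).2 rfl⟩

theorem card_split (l : ℕ) (D : Finset Pt) (z : Pt) :
    (D ∩ cube l z).card + (cube l z \ D).card = 8 ^ l := by
  rw [Finset.inter_comm, Finset.card_inter_add_card_sdiff, card_cube]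

/-- the isoperimetric inequality in a cube -/
theorem iso_cube (l : ℕ) (D : Finset Pt) (z : Pt) :
    (D ∩ cube l z).card * (cube l z \ D).card ≤
      16 ^ l * ((bd D).filter fun e => e.1 ∈ cube l z ∧ e.1 + un e.2 ∈ cube l z).card := by
  have h := t_ISO D (fun i => 2 ^ l * z i) (fun _ => 2 ^ l) (2 ^ l) (fun _ => le_rfl)
  have h1 : (Fintype.piFinset fun i => Finset.Ico (2 ^ l * z i)
      (2 ^ l * z i + ((2 ^ l : ℕ) : ℤ))) = cube l z := by
    unfold cube
    push_cast
    rfl
  simp only at h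
  rw [h1] at h
  have h2 : (2 ^ l) ^ 4 = 16 ^ l := by
    rw [← pow_mul, mul_comm, pow_mul]
    norm_num
  rw [h2] at h
  exact h

theorem cgdiff_cube (l : ℕ) (D : Finset Pt) (z : Pt) :
    ((symmDiff D (cg l D)).filter fun x => idx l x = z).card ≤ 2 * 2 ^ l *
      ((bd D).filter fun e => e.1 ∈ cube l z ∧ e.1 + un e.2 ∈ cube l z).card := by
  have h1 := iso_cube l D z
  have h2 := card_split l D z
  set E := ((bd D).filter fun e => e.1 ∈ cube l z ∧ e.1 + un e.2 ∈ cube l z).card with hE
  set α := (D ∩ cube l z).card with hα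
  set β := (cube l z \ D).card with hβ
  have h8 : 0 < 8 ^ l := by positivity
  have h16 : 16 ^ l = 8 ^ l * 2 ^ l := by
    rw [← mul_pow]
    norm_num
  by_cases hz : z ∈ maj l D
  · have h3 : ((symmDiff D (cg l D)).filter fun x => idx l x = z) ⊆ cube l z \ D := by
      intro x hx
      rw [Finset.mem_filter, Finset.mem_symmDiff, mem_cg] at hx
      obtain ⟨hx1, hx2⟩ := hx
      rw [Finset.mem_sdiff, mem_cube]
      refine ⟨hx2, ?_⟩
      rw [hx2] at hx1
      tauto
    have h4 := Finset.card_le_card h3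
    rw [mem_maj, ← hα] at hz
    rw [← hβ] at h4
    refine h4.trans ?_
    have h5 : 8 ^ l * β ≤ 8 ^ l * (2 * 2 ^ l * E) := by
      calc 8 ^ l * β ≤ 2 * α * β := Nat.mul_le_mul_right _ hz
        _ = 2 * (α * β) := by ring
        _ ≤ 2 * (16 ^ l * E) := Nat.mul_le_mul_left _ h1
        _ = 8 ^ l * (2 * 2 ^ l * E) := by rw [h16]; ring
    exact Nat.le_of_mul_le_mul_left h5 h8
  · have h3 : ((symmDiff D (cg l D)).filter fun x => idx l x = z) ⊆ D ∩ cube l z := by
      intro x hx
      rw [Finset.mem_filter, Finset.mem_symmDiff, mem_cg] at hx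
      obtain ⟨hx1, hx2⟩ := hx
      rw [Finset.mem_inter, mem_cube]
      refine ⟨?_, hx2⟩
      rw [hx2] at hx1
      tauto
    have h4 := Finset.card_le_card h3
    rw [mem_maj, ← hα, not_le] at hz
    rw [← hα] at h4
    refine h4.trans ?_
    have h6 : 8 ^ l ≤ 2 * β := by omega
    have h5 : 8 ^ l * α ≤ 8 ^ l * (2 * 2 ^ l * E) := by
      calc 8 ^ l * α ≤ 2 * β * α := Nat.mul_le_mul_right _ h6
        _ = 2 * (α * β) := by ring
        _ ≤ 2 * (16 ^ l * E) := Nat.mul_le_mul_left _ h1
        _ = 8 ^ l * (2 * 2 ^ l * E) := by rw [h16]; ring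
    exact Nat.le_of_mul_le_mul_left h5 h8

theorem t_CGDIFF : S_CGDIFF := by
  intro l D
  classical
  set Z := (symmDiff D (cg l D)).image (idx l) with hZ
  have h1 : (symmDiff D (cg l D)).card =
      ∑ z ∈ Z, ((symmDiff D (cg l D)).filter fun x => idx l x = z).card :=
    Finset.card_eq_sum_card_fiberwise fun x hx => Finset.mem_image_of_mem _ hx
  rw [h1]
  refine (Finset.sum_le_sum fun z _ => cgdiff_cube l D z).trans ?_
  rw [← Finset.mul_sum]
  refine Nat.mul_le_mul_left _ ?_
  rw [← Finset.card_biUnion]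
  · refine Finset.card_le_card ?_
    intro e he
    rw [Finset.mem_biUnion] at he
    obtain ⟨z, _, h⟩ := he
    exact (Finset.mem_filter.1 h).1
  · intro z _ z' _ hne
    rw [Function.onFun, Finset.disjoint_left]
    intro e he he'
    rw [Finset.mem_filter, mem_cube] at he he'
    exact hne (he.2.1.symm.trans he'.2.1)

theorem idx_add (l : ℕ) (z : Pt) (i : Fin 3) (x : Pt) :
    (x ∈ cube l z ∪ cube l (z + un i)) ↔ ∀ j, 2 ^ l * z j ≤ x j ∧
      x j < 2 ^ l * z j + ((if j = i then 2 * 2 ^ l else 2 ^ l : ℕ) : ℤ) := by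
  have h2 : (0 : ℤ) < 2 ^ l := by positivity
  rw [Finset.mem_union]
  unfold cube
  rw [Fintype.mem_piFinset, Fintype.mem_piFinset]
  simp only [Finset.mem_Ico, Pi.add_apply]
  constructor
  · rintro (h | h) j
    · have h3 := h j
      split_ifs
      · push_cast
        constructor
        · exact h3.1
        · linarith [h3.2]
      · push_cast
        exact h3
    · have h3 := h j
      by_cases hj : j = i
      · rw [if_pos hj]
        rw [hj, un_same] at h3
        rw [hj]
        push_cast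
        constructor
        · linarith [h3.1]
        · linarith [h3.2]
      · rw [if_neg hj]
        rw [un_ne hj, add_zero] at h3
        push_cast
        exact h3
  · intro h
    by_cases hi : x i < 2 ^ l * z i + 2 ^ l
    · left
      intro j
      by_cases hj : j = i
      · rw [hj]
        exact ⟨(h i).1, hi⟩
      · have h3 := h j
        rw [if_neg hj] at h3
        push_cast at h3
        exact h3
    · right
      intro j
      by_cases hj : j = i
      · have h3 := (h i).2
        rw [if_pos rfl] at h3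
        push_cast at h3
        rw [hj, un_same]
        constructor
        · linarith
        · linarith
      · have h3 := h j
        rw [if_neg hj] at h3
        push_cast at h3
        rw [un_ne hj, add_zero]
        exact h3

theorem add_un_ne (z : Pt) (i : Fin 3) : z + un i ≠ z := by
  intro h
  have := congrFun h i
  rw [Pi.add_apply, un_same] at this
  omega

/-- many edges of the boundary in the double cube of a coarse edge -/
theorem coarse_one (l : ℕ) (D : Finset Pt) (c : Ed) (hc : c ∈ bd (maj l D)) :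
    3 * 4 ^ l ≤ 64 * ((bd D).filter fun e =>
    e.1 ∈ cube l c.1 ∪ cube l (c.1 + un c.2) ∧
      e.1 + un e.2 ∈ cube l c.1 ∪ cube l (c.1 + un c.2)).card := by
  obtain ⟨z, i⟩ := c
  rw [mem_bd] at hc
  simp only at hc ⊢
  have h := t_ISO D (fun j => 2 ^ l * z j) (fun j => if j = i then 2 * 2 ^ l else 2 ^ l)
    (2 * 2 ^ l) (fun j => by
      split_ifs
      · exact le_rfl
      · have : 0 < 2 ^ l := by positivity
        omega)
  have h1 : (Fintype.piFinset fun j => Finset.Ico (2 ^ l * z j)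
      (2 ^ l * z j + ((if j = i then 2 * 2 ^ l else 2 ^ l : ℕ) : ℤ))) =
      cube l z ∪ cube l (z + un i) := by
    ext x
    rw [idx_add, Fintype.mem_piFinset]
    simp only [Finset.mem_Ico]
  simp only at h
  rw [h1] at h
  have hdis : Disjoint (cube l z) (cube l (z + un i)) := by
    rw [Finset.disjoint_left]
    intro x h2 h3
    rw [mem_cube] at h2 h3
    exact add_un_ne z i (h3.symm.trans h2)
  have e1 : (D ∩ (cube l z ∪ cube l (z + un i))).card =
      (D ∩ cube l z).card + (D ∩ cube l (z + un i)).card := by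
    rw [Finset.inter_union_distrib_left, Finset.card_union_of_disjoint]
    exact hdis.mono Finset.inter_subset_right Finset.inter_subset_right
  have e2 : ((cube l z ∪ cube l (z + un i)) \ D).card =
      (cube l z \ D).card + (cube l (z + un i) \ D).card := by
    rw [Finset.union_sdiff_distrib, Finset.card_union_of_disjoint]
    exact hdis.mono Finset.sdiff_subset Finset.sdiff_subset
  rw [e1, e2] at h
  have s1 := card_split l D z
  have s2 := card_split l D (z + un i)
  rw [mem_maj, mem_maj] at hc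
  set E := ((bd D).filter fun e => e.1 ∈ cube l z ∪ cube l (z + un i) ∧
      e.1 + un e.2 ∈ cube l z ∪ cube l (z + un i)).card with hE
  set α := (D ∩ cube l z).card
  set β := (D ∩ cube l (z + un i)).card
  set α' := (cube l z \ D).card
  set β' := (cube l (z + un i) \ D).card
  have h16 : (2 * 2 ^ l) ^ 4 = 16 * 16 ^ l := by
    rw [mul_pow, ← pow_mul, mul_comm l 4, pow_mul]
    norm_num
  rw [h16] at h
  have h64 : 8 ^ l * 8 ^ l = 16 ^ l * 4 ^ l := by
    rw [← mul_pow, ← mul_pow]
    norm_num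
  have hp : 0 < 16 ^ l := by positivity
  have hM : 3 * (8 ^ l * 8 ^ l) ≤ 4 * ((α + β) * (α' + β')) := by
    generalize 8 ^ l = M at *
    have hu : M ≤ 2 * (α + β) ∧ 2 * (α + β) ≤ 3 * M := by omega
    have hv : α' + β' + (α + β) = 2 * M := by omega
    obtain ⟨u1, u2⟩ := hu
    have hv' : α' + β' = 2 * M - (α + β) := by omega
    rw [hv']
    generalize α + β = u at *
    have hu3 : u ≤ 2 * M := by omega
    zify [hu3] at *
    nlinarith [mul_nonneg (sub_nonneg.2 u1) (sub_nonneg.2 u2)]
  have h5 : 16 ^ l * (3 * 4 ^ l) ≤ 16 ^ l * (64 * E) := by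
    calc 16 ^ l * (3 * 4 ^ l) = 3 * (8 ^ l * 8 ^ l) := by rw [h64]; ring
      _ ≤ 4 * ((α + β) * (α' + β')) := hM
      _ ≤ 4 * (16 * 16 ^ l * E) := Nat.mul_le_mul_left _ h
      _ = 16 ^ l * (64 * E) := by ring
  exact Nat.le_of_mul_le_mul_left h5 hp

theorem t_COARSE : S_COARSE := by
  intro l D
  classical
  refine ⟨fun c hc => coarse_one l D c hc, ?_⟩
  have h1 : ∑ c ∈ bd (maj l D), 3 * 4 ^ l ≤ ∑ c ∈ bd (maj l D), 64 * ((bd D).filter fun e =>
    e.1 ∈ cube l c.1 ∪ cube l (c.1 + un c.2) ∧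
      e.1 + un e.2 ∈ cube l c.1 ∪ cube l (c.1 + un c.2)).card :=
    Finset.sum_le_sum fun c hc => coarse_one l D c hc
  rw [Finset.sum_const, smul_eq_mul, ← Finset.mul_sum] at h1
  have h2 : ∑ c ∈ bd (maj l D), ((bd D).filter fun e =>
    e.1 ∈ cube l c.1 ∪ cube l (c.1 + un c.2) ∧
      e.1 + un e.2 ∈ cube l c.1 ∪ cube l (c.1 + un c.2)).card =
    ∑ e ∈ bd D, ((bd (maj l D)).filter fun c => e.1 ∈ cube l c.1 ∪ cube l (c.1 + un c.2) ∧
      e.1 + un e.2 ∈ cube l c.1 ∪ cube l (c.1 + un c.2)).card :=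
    Finset.sum_card_bipartiteAbove_eq_sum_card_bipartiteBelow
      (fun (c e : Ed) => e.1 ∈ cube l c.1 ∪ cube l (c.1 + un c.2) ∧
      e.1 + un e.2 ∈ cube l c.1 ∪ cube l (c.1 + un c.2))
  have h3 : ∀ e ∈ bd D, ((bd (maj l D)).filter fun c =>
      e.1 ∈ cube l c.1 ∪ cube l (c.1 + un c.2) ∧
      e.1 + un e.2 ∈ cube l c.1 ∪ cube l (c.1 + un c.2)).card ≤ 6 := by
    intro e _
    have h4 : ((bd (maj l D)).filter fun c => e.1 ∈ cube l c.1 ∪ cube l (c.1 + un c.2) ∧
        e.1 + un e.2 ∈ cube l c.1 ∪ cube l (c.1 + un c.2)) ⊆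
        (Finset.univ : Finset (Fin 3 × Bool)).image fun q =>
          ((idx l e.1 - if q.2 then un q.1 else 0, q.1) : Ed) := by
      intro c hc
      rw [Finset.mem_filter, Finset.mem_union, mem_cube, mem_cube] at hc
      rw [Finset.mem_image]
      rcases hc.2.1 with h | h
      · refine ⟨(c.2, false), Finset.mem_univ _, ?_⟩
        rw [h]
        simp
      · refine ⟨(c.2, true), Finset.mem_univ _, ?_⟩
        rw [h]
        simp
    refine (Finset.card_le_card h4).trans (Finset.card_image_le.trans ?_)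
    simp
  have h4 := Finset.sum_le_sum h3
  rw [Finset.sum_const, smul_eq_mul, ← h2] at h4
  have h5 : 3 * ((bd (maj l D)).card * 4 ^ l) ≤ 3 * (128 * (bd D).card) := by
    calc 3 * ((bd (maj l D)).card * 4 ^ l) = (bd (maj l D)).card * (3 * 4 ^ l) := by ring
      _ ≤ _ := h1
      _ ≤ 64 * ((bd D).card * 6) := Nat.mul_le_mul_left _ h4
      _ = 3 * (128 * (bd D).card) := by ring
  exact Nat.le_of_mul_le_mul_left h5 (by norm_num)

theorem bd_empty : bd ∅ = ∅ := by
  ext e
  rw [mem_bd]
  simp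

theorem t_SMALL : S_SMALL := by
  refine ⟨fun A B h => bd_inj h, fun D h => two_le h, fun l D h => ?_⟩
  have h1 := (t_COARSE l D).2
  apply bd_inj
  rw [bd_empty, ← Finset.card_eq_zero]
  by_contra h2
  have h3 : 4 ^ l ≤ (bd (maj l D)).card * 4 ^ l :=
    Nat.le_mul_of_pos_left _ (Nat.pos_of_ne_zero h2)
  omega

end Pool.Agent.Q239.SG
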