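import Pool.Agent.Q239.SG.Bas

set_option autoImplicit false

/-! Project SG, job CONTOUR: a finite set around the origin with connected boundary. -/

open Pool.Agent.Q83.SG

namespace Pool.Agent.Q239.SG

open Classical in
/-- `1` if the edge is in `E`, `0` otherwise -/
noncomputable def ind (E : Finset Ed) (x : Pt) (i : Fin 3) : ℕ := if (x, i) ∈ E then 1 else 0

open Classical in
/-- the number of edges of direction `e_0` in `E` on the ray from `x` in direction `e_0` -/
noncomputable def ray (E : Finset Ed) (x : Pt) : ℕ :=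
  (E.filter fun e => e.2 = 0 ∧ e.1 1 = x 1 ∧ e.1 2 = x 2 ∧ x 0 ≤ e.1 0).card

/-- each unit square has an even number of edges in `E` -/
def Plaq (E : Finset Ed) : Prop := ∀ (x : Pt) (i j : Fin 3), i ≠ j →
  Even (ind E x i + ind E (x + un j) i + ind E x j + ind E (x + un i) j)

theorem ray_succ (E : Finset Ed) (x : Pt) : ray E x = ray E (x + un 0) + ind E x 0 := by
  classical
  unfold ray ind
  have h1 : (E.filter fun e => e.2 = 0 ∧ e.1 1 = x 1 ∧ e.1 2 = x 2 ∧ x 0 ≤ e.1 0) =
      (E.filter fun e => e.2 = 0 ∧ e.1 1 = (x + un 0) 1 ∧ e.1 2 = (x + un 0) 2 ∧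
        (x + un 0) 0 ≤ e.1 0) ∪ (E.filter fun e => e = (x, 0)) := by
    ext e
    simp only [Finset.mem_filter, Finset.mem_union, Pi.add_apply, un_same,
      un_ne (show (1 : Fin 3) ≠ 0 by decide), un_ne (show (2 : Fin 3) ≠ 0 by decide), add_zero]
    constructor
    · rintro ⟨h1, h2, h3, h4, h5⟩
      rcases eq_or_lt_of_le h5 with h6 | h6
      · right
        refine ⟨h1, Prod.ext ?_ h2⟩
        funext j
        fin_cases j
        · exact h6.symm
        · exact h3
        · exact h4
      · left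
        exact ⟨h1, h2, h3, h4, by omega⟩
    · rintro (⟨h1, h2, h3, h4, h5⟩ | ⟨h1, rfl⟩)
      · exact ⟨h1, h2, h3, h4, by omega⟩
      · exact ⟨h1, rfl, rfl, rfl, le_rfl⟩
  rw [h1, Finset.card_union_of_disjoint]
  · congr 1
    rw [Finset.filter_eq']
    split_ifs <;> simp
  · rw [Finset.disjoint_left]
    intro e he he'
    rw [Finset.mem_filter] at he he'
    rw [he'.2] at he
    have h3 := he.2.2.2.2
    simp only [Pi.add_apply, un_same] at h3
    omega

/-- a bound for the coordinates of the edges -/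
theorem exists_bound (E : Finset Ed) : ∃ M : ℤ, 0 ≤ M ∧ ∀ e ∈ E, ∀ j, |e.1 j| ≤ M := by
  classical
  induction E using Finset.induction_on with
  | empty => exact ⟨0, le_rfl, fun e he => absurd he (Finset.notMem_empty e)⟩
  | insert a s _ ih =>
    obtain ⟨M, h0, hM⟩ := ih
    refine ⟨M + (|a.1 0| + |a.1 1| + |a.1 2|), by positivity, fun e he j => ?_⟩
    have h1 := abs_nonneg (a.1 0)
    have h2 := abs_nonneg (a.1 1)
    have h3 := abs_nonneg (a.1 2)
    rw [Finset.mem_insert] at he
    rcases he with rfl | he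
    · fin_cases j
      · change |e.1 0| ≤ _
        omega
      · change |e.1 1| ≤ _
        omega
      · change |e.1 2| ≤ _
        omega
    · have h4 := hM e he j
      omega

theorem ray_zero {E : Finset Ed} {M : ℤ} (hM : ∀ e ∈ E, ∀ j, |e.1 j| ≤ M) {x : Pt}
    (hx : M < x 0 ∨ M < |x 1| ∨ M < |x 2|) : ray E x = 0 := by
  classical
  unfold ray
  rw [Finset.card_eq_zero, Finset.filter_eq_empty_iff]
  rintro e he ⟨h1, h2, h3, h4⟩
  have b0 := hM e he 0
  have b1 := hM e he 1
  have b2 := hM e he 2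
  rw [h2] at b1
  rw [h3] at b2
  have b3 := le_abs_self (e.1 0)
  omega

theorem ind_zero {E : Finset Ed} {M : ℤ} (hM : ∀ e ∈ E, ∀ j, |e.1 j| ≤ M) {x : Pt} {j : Fin 3}
    (hx : M < |x j|) (i : Fin 3) : ind E x i = 0 := by
  unfold ind
  rw [if_neg]
  intro h
  have h1 := hM _ h j
  simp only at h1
  omega

/-- the parity of `ray` changes exactly along the edges of `E` -/
theorem ray_par {E : Finset Ed} (hE : Plaq E) (x : Pt) (i : Fin 3) :
    Even (ray E x + ray E (x + un i) + ind E x i) := by
  by_cases hi : i = 0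
  · subst hi
    rw [ray_succ E x]
    exact ⟨ray E (x + un 0) + ind E x 0, by ring⟩
  · obtain ⟨M, h0, hM⟩ := exists_bound E
    have key : ∀ k : ℕ, ∀ x : Pt, M < x 0 + k →
        Even (ray E x + ray E (x + un i) + ind E x i) := by
      intro k
      induction k with
      | zero =>
        intro x hx
        rw [Nat.cast_zero, add_zero] at hx
        have h1 : (x + un i) 0 = x 0 := by
          rw [Pi.add_apply, un_ne (Ne.symm hi), add_zero]
        rw [ray_zero hM (Or.inl hx), ray_zero hM (Or.inl (by rw [h1]; exact hx)),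
          ind_zero hM (j := 0) (hx.trans_le (le_abs_self _))]
        exact ⟨0, rfl⟩
      | succ k ih =>
        intro x hx
        have h1 := ih (x + un 0) (by
          rw [Pi.add_apply, un_same]
          push_cast at hx
          omega)
        have h2 := hE x 0 i (Ne.symm hi)
        rw [ray_succ E x, ray_succ E (x + un i)]
        have e1 : x + un i + un 0 = x + un 0 + un i := by
          rw [add_assoc, add_assoc, add_comm (un i)]
        rw [e1]
        obtain ⟨a, ha⟩ := h1
        obtain ⟨b, hb⟩ := h2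
        exact ⟨a + b - ind E (x + un 0) i, by omega⟩
    exact key ((M + 1 - x 0).toNat) x (by omega)

/-- the parity of `ray` is even far away -/
theorem ray_far {E : Finset Ed} (hE : Plaq E) {M : ℤ} (h0 : 0 ≤ M)
    (hM : ∀ e ∈ E, ∀ j, |e.1 j| ≤ M) {x : Pt} (hx : x 0 < -M) : Even (ray E x) := by
  have hx' : M < |x 0| := by
    rw [abs_of_neg (by omega)]
    omega
  have key : ∀ k : ℕ, Even (ray E x + ray E (x + k • un 1)) := by
    intro k
    induction k with
    | zero =>
      rw [zero_smul, add_zero]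
      exact ⟨_, rfl⟩
    | succ k ih =>
      have h1 := ray_par hE (x + k • un 1) 1
      have h2 : ind E (x + k • un 1) 1 = 0 := by
        refine ind_zero hM (j := 0) ?_ 1
        rw [Pi.add_apply, Pi.smul_apply, un_ne (show (0 : Fin 3) ≠ 1 by decide), smul_zero,
          add_zero]
        exact hx'
      rw [h2, add_zero] at h1
      rw [succ_nsmul, ← add_assoc]
      obtain ⟨a, ha⟩ := ih
      obtain ⟨b, hb⟩ := h1
      exact ⟨a + b - ray E (x + k • un 1), by omega⟩
  have h1 := key (M + 1 + |x 1|).toNat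
  have h2 : ray E (x + (M + 1 + |x 1|).toNat • un 1) = 0 := by
    refine ray_zero hM (Or.inr (Or.inl ?_))
    rw [Pi.add_apply, Pi.smul_apply, un_same, nsmul_eq_mul, mul_one]
    have h3 := neg_abs_le (x 1)
    have h4 := abs_nonneg (x 1)
    have h5 : (((M + 1 + |x 1|).toNat : ℕ) : ℤ) = M + 1 + |x 1| := by omega
    rw [h5]
    have h6 := le_abs_self (x 1 + (M + 1 + |x 1|))
    omega
  rw [h2, add_zero] at h1
  exact h1

/-- an edge set which is even on each square is a boundary -/
theorem fill {E : Finset Ed} (hE : Plaq E) : ∃ D : Finset Pt, bd D = E ∧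
    ∀ x, x ∈ D ↔ Odd (ray E x) := by
  classical
  obtain ⟨M, h0, hM⟩ := exists_bound E
  let D : Finset Pt := (Fintype.piFinset fun _ => Finset.Icc (-M) M).filter fun x => Odd (ray E x)
  have hD : ∀ x, x ∈ D ↔ Odd (ray E x) := by
    intro x
    simp only [D]
    rw [Finset.mem_filter, and_iff_right_iff_imp]
    intro h
    rw [Fintype.mem_piFinset]
    by_contra hcon
    rw [not_forall] at hcon
    obtain ⟨j, hj⟩ := hcon
    rw [Finset.mem_Icc, not_and_or, not_le, not_le] at hj
    rw [← Nat.not_even_iff_odd] at h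
    apply h
    have habs : M < |x j| := by
      rcases hj with h1 | h1
      · rw [abs_of_neg (by omega)]
        omega
      · exact h1.trans_le (le_abs_self _)
    fin_cases j
    · rcases hj with h1 | h1
      · exact ray_far hE h0 hM h1
      · rw [ray_zero hM (Or.inl h1)]
        exact ⟨0, rfl⟩
    · rw [ray_zero hM (Or.inr (Or.inl habs))]
      exact ⟨0, rfl⟩
    · rw [ray_zero hM (Or.inr (Or.inr habs))]
      exact ⟨0, rfl⟩
  refine ⟨D, ?_, hD⟩
  ext ⟨x, i⟩
  rw [mem_bd]
  simp only
  rw [hD, hD]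
  have h1 := ray_par hE x i
  by_cases h : (x, i) ∈ E
  · have h2 : ind E x i = 1 := by
      unfold ind
      rw [if_pos h]
    rw [h2] at h1
    simp only [h, iff_true]
    rw [Nat.odd_iff, Nat.odd_iff]
    rw [Nat.even_iff] at h1
    omega
  · have h2 : ind E x i = 0 := by
      unfold ind
      rw [if_neg h]
    rw [h2] at h1
    simp only [h, iff_false, not_not]
    rw [Nat.odd_iff, Nat.odd_iff]
    rw [Nat.even_iff] at h1
    omega

/-- the boundary of a set is even on each square -/
theorem plaq_bd (D : Finset Pt) : Plaq (bd D) := by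
  classical
  intro x i j _
  have key : ∀ (y : Pt) (k : Fin 3), Even (ind (bd D) y k + ((if y ∈ D then 1 else 0) +
      (if y + un k ∈ D then 1 else 0))) := by
    intro y k
    unfold ind
    by_cases h1 : y ∈ D <;> by_cases h2 : y + un k ∈ D <;> simp [mem_bd, h1, h2]
  have k1 := key x i
  have k2 := key (x + un j) i
  have k3 := key x j
  have k4 := key (x + un i) j
  have e1 : x + un j + un i = x + un i + un j := by
    rw [add_assoc, add_assoc, add_comm (un i)]
  rw [e1] at k2
  obtain ⟨a, ha⟩ := k1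
  obtain ⟨b, hb⟩ := k2
  obtain ⟨c, hc⟩ := k3
  obtain ⟨d, hd⟩ := k4
  rw [Nat.even_iff]
  omega

/-- a union of classes is even on each square -/
theorem plaq_sub {E E' : Finset Ed} (hE : Plaq E) (hsub : E' ⊆ E)
    (hcl : ∀ u ∈ E', ∀ v ∈ E, Near u v → v ∈ E') : Plaq E' := by
  intro x i j hij
  have h := hE x i j hij
  -- the four edges
  have n1 : ∀ p q : Ed, (∀ k, |p.1 k - q.1 k| ≤ 1) → p ∈ E' → q ∈ E → q ∈ E' :=
    fun p q hn hp hq => hcl p hp q hq hn
  have hu : ∀ a k : Fin 3, 0 ≤ un a k ∧ un a k ≤ 1 := by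
    intro a k
    by_cases hk : k = a
    · subst hk
      rw [un_same]
      omega
    · rw [un_ne hk]
      omega
  let e1 : Ed := (x, i)
  let e2 : Ed := (x + un j, i)
  let e3 : Ed := (x, j)
  let e4 : Ed := (x + un i, j)
  have near : ∀ p ∈ ({e1, e2, e3, e4} : Finset Ed), ∀ q ∈ ({e1, e2, e3, e4} : Finset Ed),
      Near p q := by
    intro p hp q hq k
    have u1 := hu i k
    have u2 := hu j k
    simp only [Finset.mem_insert, Finset.mem_singleton] at hp hq
    rw [abs_le]
    rcases hp with rfl | rfl | rfl | rfl <;> rcases hq with rfl | rfl | rfl | rfl <;>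
      simp only [e1, e2, e3, e4, Pi.add_apply] <;> omega
  have m1 : e1 ∈ ({e1, e2, e3, e4} : Finset Ed) := by simp
  have m2 : e2 ∈ ({e1, e2, e3, e4} : Finset Ed) := by simp
  have m3 : e3 ∈ ({e1, e2, e3, e4} : Finset Ed) := by simp
  have m4 : e4 ∈ ({e1, e2, e3, e4} : Finset Ed) := by simp
  by_cases hex : ∃ p ∈ ({e1, e2, e3, e4} : Finset Ed), p ∈ E'
  · obtain ⟨p, hp, hpE⟩ := hex
    have same : ∀ q ∈ ({e1, e2, e3, e4} : Finset Ed), q ∈ E' ↔ q ∈ E := fun q hq =>
      ⟨fun h => hsub h, fun h => hcl p hpE q h (near p hp q hq)⟩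
    have s1 : ind E' x i = ind E x i := by
      unfold ind
      exact if_congr (same e1 m1) rfl rfl
    have s2 : ind E' (x + un j) i = ind E (x + un j) i := by
      unfold ind
      exact if_congr (same e2 m2) rfl rfl
    have s3 : ind E' x j = ind E x j := by
      unfold ind
      exact if_congr (same e3 m3) rfl rfl
    have s4 : ind E' (x + un i) j = ind E (x + un i) j := by
      unfold ind
      exact if_congr (same e4 m4) rfl rfl
    rw [s1, s2, s3, s4]
    exact h
  · push Not at hex
    have s1 : ind E' x i = 0 := if_neg (hex e1 m1)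
    have s2 : ind E' (x + un j) i = 0 := if_neg (hex e2 m2)
    have s3 : ind E' x j = 0 := if_neg (hex e3 m3)
    have s4 : ind E' (x + un i) j = 0 := if_neg (hex e4 m4)
    rw [s1, s2, s3, s4]
    exact ⟨0, rfl⟩

theorem ray_union (E : Finset Ed) (p : Ed → Prop) [DecidablePred p] (x : Pt) :
    ray E x = ray (E.filter p) x + ray (E.filter fun e => ¬ p e) x := by
  classical
  unfold ray
  rw [Finset.filter_filter, Finset.filter_filter,
    ← Finset.card_filter_add_card_filter_not (s := E.filter fun e =>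
      e.2 = 0 ∧ e.1 1 = x 1 ∧ e.1 2 = x 2 ∧ x 0 ≤ e.1 0) p, Finset.filter_filter,
    Finset.filter_filter]
  congr 2
  · congr 1
    funext e
    rw [and_comm]
  · congr 1
    funext e
    rw [and_comm]

theorem t_CONTOUR : S_CONTOUR := by
  classical
  intro S hS
  -- a set with minimal boundary
  have hex : ∃ n : ℕ, ∃ D : Finset Pt, (0 : Pt) ∈ D ∧ bd D ⊆ bd S ∧ (bd D).card = n :=
    ⟨_, S, hS, Finset.Subset.refl _, rfl⟩
  obtain ⟨D, h0, hsub, hcard⟩ := Nat.find_spec hex
  have hmin : ∀ D' : Finset Pt, (0 : Pt) ∈ D' → bd D' ⊆ bd S → (bd D).card ≤ (bd D').card := by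
    intro D' h1 h2
    rw [hcard]
    exact Nat.find_min' hex ⟨D', h1, h2, rfl⟩
  refine ⟨D, ⟨h0, ?_⟩, hsub⟩
  intro a ha b hb
  by_contra hab
  -- the edges which can be reached from `a`
  set R : Ed → Ed → Prop := fun u v => v ∈ bd D ∧ Near u v with hR
  let E₁ := (bd D).filter fun e => Relation.ReflTransGen R a e
  let E₂ := (bd D).filter fun e => ¬ Relation.ReflTransGen R a e
  have c1 : ∀ u ∈ E₁, ∀ v ∈ bd D, Near u v → v ∈ E₁ := by
    intro u hu v hv huv
    rw [Finset.mem_filter] at hu ⊢
    exact ⟨hv, hu.2.tail ⟨hv, huv⟩⟩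
  have c2 : ∀ u ∈ E₂, ∀ v ∈ bd D, Near u v → v ∈ E₂ := by
    intro u hu v hv huv
    rw [Finset.mem_filter] at hu ⊢
    exact ⟨hv, fun h => hu.2 (h.tail ⟨hu.1, near_symm huv⟩)⟩
  have p1 : Plaq E₁ := plaq_sub (plaq_bd D) (Finset.filter_subset _ _) c1
  have p2 : Plaq E₂ := plaq_sub (plaq_bd D) (Finset.filter_subset _ _) c2
  obtain ⟨D₁, b1, m1⟩ := fill p1
  obtain ⟨D₂, b2, m2⟩ := fill p2
  obtain ⟨D₀, b0, m0⟩ := fill (plaq_bd D)
  have e0 : D₀ = D := bd_inj b0
  rw [e0] at m0
  have h3 := (m0 0).1 h0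
  rw [ray_union (bd D) (fun e => Relation.ReflTransGen R a e)] at h3
  have haE : a ∈ E₁ := Finset.mem_filter.2 ⟨ha, Relation.ReflTransGen.refl⟩
  have hbE : b ∈ E₂ := Finset.mem_filter.2 ⟨hb, hab⟩
  have haE' : a ∉ E₂ := fun h => (Finset.mem_filter.1 h).2 Relation.ReflTransGen.refl
  have hbE' : b ∉ E₁ := fun h => hab (Finset.mem_filter.1 h).2
  have l1 : E₁.card < (bd D).card := by
    refine Finset.card_lt_card ⟨Finset.filter_subset _ _, fun h => hbE' (h hb)⟩
  have l2 : E₂.card < (bd D).card := by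
    refine Finset.card_lt_card ⟨Finset.filter_subset _ _, fun h => haE' (h ha)⟩
  have hodd : Odd (ray E₁ 0) ∨ Odd (ray E₂ 0) := by
    rcases Nat.even_or_odd (ray E₁ 0) with h | h
    · right
      have h4 : Odd (ray E₁ 0 + ray E₂ 0) := h3
      rw [Nat.odd_iff] at h4 ⊢
      rw [Nat.even_iff] at h
      omega
    · exact Or.inl h
  rcases hodd with h | h
  · have h4 := hmin D₁ ((m1 0).2 h) (by
      rw [b1]
      exact (Finset.filter_subset _ _).trans hsub)
    rw [b1] at h4
    omega
  · have h4 := hmin D₂ ((m2 0).2 h) (by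
      rw [b2]
      exact (Finset.filter_subset _ _).trans hsub)
    rw [b2] at h4
    omega

end Pool.Agent.Q239.SG
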