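import Pool.Agent.Q239.SG.Bas

set_option autoImplicit false

/-! Project SG, job ISO: relative isoperimetric inequality in a box. -/

open Pool.Agent.Q83.SG

namespace Pool.Agent.Q239.SG

/-- the intermediate points: coordinates below `i` from `y`, the others from `x` -/
def mid (x y : Pt) (i : ℕ) : Pt := fun j => if (j : ℕ) < i then y j else x j

theorem mid_succ (x y : Pt) (i : Fin 3) :
    mid x y ((i : ℕ) + 1) = Function.update (mid x y i) i (y i) := by
  funext j
  by_cases hj : j = i
  · subst hj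
    simp [mid]
  · rw [Function.update_of_ne hj]
    unfold mid
    have h1 : (j : ℕ) ≠ i := fun h => hj (Fin.ext h)
    by_cases h2 : (j : ℕ) < i
    · rw [if_pos h2, if_pos (by omega)]
    · rw [if_neg h2, if_neg (by omega)]

theorem mid_zero (x y : Pt) : mid x y 0 = x := by
  funext j
  simp [mid]

theorem mid_three (x y : Pt) : mid x y 3 = y := by
  funext j
  have := j.2
  simp [mid]

theorem mid_self (x y : Pt) (i : Fin 3) : mid x y i i = x i := by
  simp [mid]

/-- a pair with `x ∈ D`, `y ∉ D` crosses the boundary in one of the three segments -/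
theorem cross (D : Finset Pt) {x y : Pt} (hx : x ∈ D) (hy : y ∉ D) :
    ∃ (i : Fin 3) (t : ℤ), min (x i) (y i) ≤ t ∧ t + 1 ≤ max (x i) (y i) ∧
      ((Function.update (mid x y i) i t, i) : Ed) ∈ bd D := by
  have h : ∃ i : Fin 3, mid x y i ∈ D ∧ mid x y ((i : ℕ) + 1) ∉ D := by
    by_contra hcon
    push Not at hcon
    have h0 := hcon 0 (by rw [Fin.val_zero, mid_zero]; exact hx)
    have h1 := hcon 1 h0
    have h2 := hcon 2 h1
    change mid x y 3 ∈ D at h2
    rw [mid_three] at h2
    exact hy h2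
  obtain ⟨i, h1, h2⟩ := h
  rw [mid_succ] at h2
  obtain ⟨t, h3, h4, h5⟩ := change_seg D i (mid x y i) h1 h2
  rw [mid_self] at h3 h4
  exact ⟨i, t, h3, h4, h5⟩

/-- the code of a pair: four of its six coordinates -/
def code (a x y : Pt) (i : Fin 3) : Fin 4 → ℕ :=
  ![(x 0 - a 0).toNat,
    if (1 : ℕ) ≤ (i : ℕ) then (x 1 - a 1).toNat else (y 0 - a 0).toNat,
    if (2 : ℕ) ≤ (i : ℕ) then (x 2 - a 2).toNat else (y 1 - a 1).toNat,
    (y 2 - a 2).toNat]

theorem code_inj (a : Pt) {x y x' y' : Pt} (hx : ∀ j, a j ≤ x j) (hy : ∀ j, a j ≤ y j)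
    (hx' : ∀ j, a j ≤ x' j) (hy' : ∀ j, a j ≤ y' j) (i : Fin 3) {t t' : ℤ}
    (h : Function.update (mid x y i) i t = Function.update (mid x' y' i) i t')
    (hc : code a x y i = code a x' y' i) : x = x' ∧ y = y' := by
  have c0 := congrFun hc 0
  have c1 := congrFun hc 1
  have c2 := congrFun hc 2
  have c3 := congrFun hc 3
  have h0 := congrFun h 0
  have h1 := congrFun h 1
  have h2 := congrFun h 2
  have b0 := hx 0
  have b1 := hx 1
  have b2 := hx 2
  have b3 := hy 0
  have b4 := hy 1
  have b5 := hy 2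
  have b0' := hx' 0
  have b1' := hx' 1
  have b2' := hx' 2
  have b3' := hy' 0
  have b4' := hy' 1
  have b5' := hy' 2
  suffices x 0 = x' 0 ∧ x 1 = x' 1 ∧ x 2 = x' 2 ∧ y 0 = y' 0 ∧ y 1 = y' 1 ∧ y 2 = y' 2 by
    obtain ⟨e0, e1, e2, e3, e4, e5⟩ := this
    constructor
    · funext j
      fin_cases j
      · exact e0
      · exact e1
      · exact e2
    · funext j
      fin_cases j
      · exact e3
      · exact e4
      · exact e5
  fin_cases i
  · simp [code, mid, Function.update] at c0 c1 c2 c3 h0 h1 h2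
    omega
  · simp [code, mid, Function.update] at c0 c1 c2 c3 h0 h1 h2
    omega
  · simp [code, mid, Function.update] at c0 c1 c2 c3 h0 h1 h2
    omega

theorem code_lt (a x y : Pt) (n : Fin 3 → ℕ) (s : ℕ) (hn : ∀ i, n i ≤ s)
    (hx : ∀ j, a j ≤ x j ∧ x j < a j + n j) (hy : ∀ j, a j ≤ y j ∧ y j < a j + n j) (i : Fin 3)
    (k : Fin 4) : code a x y i k < s := by
  have n0 := hn 0
  have n1 := hn 1
  have n2 := hn 2
  have b0 := hx 0
  have b1 := hx 1
  have b2 := hx 2
  have b3 := hy 0
  have b4 := hy 1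
  have b5 := hy 2
  fin_cases k
  · simp only [code]
    change (x 0 - a 0).toNat < s
    omega
  · change (if (1 : ℕ) ≤ (i : ℕ) then (x 1 - a 1).toNat else (y 0 - a 0).toNat) < s
    split_ifs <;> omega
  · change (if (2 : ℕ) ≤ (i : ℕ) then (x 2 - a 2).toNat else (y 1 - a 1).toNat) < s
    split_ifs <;> omega
  · change (y 2 - a 2).toNat < s
    omega

theorem t_ISO : S_ISO := by
  intro D a n s hn R
  classical
  have hR : ∀ x : Pt, x ∈ R ↔ ∀ i, a i ≤ x i ∧ x i < a i + n i := by
    intro x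
    simp only [R, Fintype.mem_piFinset, Finset.mem_Ico]
  let Eb := (bd D).filter fun e => e.1 ∈ R ∧ e.1 + un e.2 ∈ R
  let Q : Finset (Fin 4 → ℕ) := Fintype.piFinset fun _ => Finset.range s
  have hQ : Q.card = s ^ 4 := by
    simp [Q, Fintype.card_piFinset]
  have hex : ∀ p : Pt × Pt, p ∈ (D ∩ R) ×ˢ (R \ D) → ∃ (i : Fin 3) (t : ℤ),
      min (p.1 i) (p.2 i) ≤ t ∧ t + 1 ≤ max (p.1 i) (p.2 i) ∧
      ((Function.update (mid p.1 p.2 i) i t, i) : Ed) ∈ bd D := by
    intro p hp
    rw [Finset.mem_product, Finset.mem_inter, Finset.mem_sdiff] at hp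
    exact cross D hp.1.1 hp.2.2
  choose! ii tt h1 h2 h3 using hex
  -- the injection
  let φ : Pt × Pt → (Fin 4 → ℕ) × Ed := fun p =>
    (code a p.1 p.2 (ii p), (Function.update (mid p.1 p.2 (ii p)) (ii p) (tt p), ii p))
  have hb : ∀ p : Pt × Pt, p ∈ (D ∩ R) ×ˢ (R \ D) →
      (∀ j, a j ≤ p.1 j ∧ p.1 j < a j + n j) ∧ ∀ j, a j ≤ p.2 j ∧ p.2 j < a j + n j := by
    intro p hp
    rw [Finset.mem_product, Finset.mem_inter, Finset.mem_sdiff] at hp
    exact ⟨(hR _).1 hp.1.2, (hR _).1 hp.2.1⟩
  have hmaps : ∀ p ∈ (D ∩ R) ×ˢ (R \ D), φ p ∈ Q ×ˢ Eb := by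
    intro p hp
    obtain ⟨b1, b2⟩ := hb p hp
    rw [Finset.mem_product]
    refine ⟨?_, ?_⟩
    · rw [Fintype.mem_piFinset]
      intro k
      rw [Finset.mem_range]
      exact code_lt a p.1 p.2 n s hn b1 b2 (ii p) k
    · rw [Finset.mem_filter]
      refine ⟨h3 p hp, ?_, ?_⟩
      · rw [hR]
        intro j
        have e1 := h1 p hp
        have e2 := h2 p hp
        have e3 := b1 j
        have e4 := b2 j
        change a j ≤ Function.update (mid p.1 p.2 (ii p)) (ii p) (tt p) j ∧
          Function.update (mid p.1 p.2 (ii p)) (ii p) (tt p) j < a j + n j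
        by_cases hj : j = ii p
        · rw [← hj] at e1 e2 ⊢
          rw [Function.update_self]
          omega
        · rw [Function.update_of_ne hj]
          unfold mid
          split_ifs
          · exact e4
          · exact e3
      · rw [hR]
        intro j
        have e1 := h1 p hp
        have e2 := h2 p hp
        have e3 := b1 j
        have e4 := b2 j
        change a j ≤ (Function.update (mid p.1 p.2 (ii p)) (ii p) (tt p) + un (ii p)) j ∧
          (Function.update (mid p.1 p.2 (ii p)) (ii p) (tt p) + un (ii p)) j < a j + n j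
        by_cases hj : j = ii p
        · rw [← hj] at e1 e2 ⊢
          rw [Pi.add_apply, un_same, Function.update_self]
          omega
        · rw [Pi.add_apply, un_ne hj, add_zero, Function.update_of_ne hj]
          unfold mid
          split_ifs
          · exact e4
          · exact e3
  have hinj : Set.InjOn φ ((D ∩ R) ×ˢ (R \ D) : Finset (Pt × Pt)) := by
    intro p hp q hq hpq
    obtain ⟨b1, b2⟩ := hb p hp
    obtain ⟨b3, b4⟩ := hb q hq
    simp only [φ, Prod.mk.injEq] at hpq
    obtain ⟨e1, e2, e3⟩ := hpq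
    rw [← e3] at e1 e2
    obtain ⟨e4, e5⟩ := code_inj a (fun j => (b1 j).1) (fun j => (b2 j).1) (fun j => (b3 j).1)
      (fun j => (b4 j).1) (ii p) e2 e1
    exact Prod.ext e4 e5
  have h4 := Finset.card_le_card_of_injOn φ hmaps hinj
  rw [Finset.card_product, Finset.card_product, hQ] at h4
  exact h4

end Pool.Agent.Q239.SG
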