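import Pool.Agent.Q239.SG.Bas

set_option autoImplicit false

/-! Project SG, jobs WALK and START. -/

open Pool.Agent.Q83.SG

namespace Pool.Agent.Q239.SG

/-- leaving a proper subset of a connected set -/
theorem exists_exit {E W : Finset Ed} (hE : Conn E) {a : Ed} (ha : a ∈ W) (hW : W ⊆ E)
    (hne : W ≠ E) : ∃ u ∈ W, ∃ v ∈ E, v ∉ W ∧ Near u v := by
  by_contra hcon
  push Not at hcon
  apply hne
  refine Finset.Subset.antisymm hW fun b hb => ?_
  have h := hE a (hW ha) b hb
  have key : ∀ c, Relation.ReflTransGen (fun u v => v ∈ E ∧ Near u v) a c → c ∈ W := by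
    intro c hc
    induction hc with
    | refl => exact ha
    | tail _ h1 ih =>
      by_contra h2
      exact hcon _ ih _ h1.1 h2 h1.2
  exact key b h

theorem walk_aux {E : Finset Ed} (hE : Conn E) {a : Ed} (ha : a ∈ E) (k : ℕ) (hk : k + 1 ≤ E.card) :
    ∃ (W : Finset Ed) (w : ℕ → Ed), W ⊆ E ∧ a ∈ W ∧ W.card = k + 1 ∧ w 0 = a ∧
      (∀ t, w t ∈ E ∧ Near (w t) (w (t + 1))) ∧ ∀ b ∈ W, ∃ t ≤ 2 * k, w t = b := by
  induction k with
  | zero =>
    refine ⟨{a}, fun _ => a, ?_, ?_, ?_, rfl, fun _ => ⟨ha, near_refl a⟩, ?_⟩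
    · rwa [Finset.singleton_subset_iff]
    · exact Finset.mem_singleton_self a
    · simp
    · intro b hb
      rw [Finset.mem_singleton] at hb
      exact ⟨0, le_rfl, hb.symm⟩
  | succ k ih =>
    obtain ⟨W, w, hW, haW, hcard, h0, hw, hv⟩ := ih (by omega)
    have hne : W ≠ E := by
      rintro rfl
      omega
    obtain ⟨u, hu, v, hvE, hvW, huv⟩ := exists_exit hE haW hW hne
    obtain ⟨t₀, ht₀, htu⟩ := hv u hu
    refine ⟨insert v W, fun t => if t ≤ t₀ then w t else if t = t₀ + 1 then v else w (t - 2),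
      ?_, ?_, ?_, ?_, ?_, ?_⟩
    · intro x hx
      rw [Finset.mem_insert] at hx
      rcases hx with rfl | hx
      · exact hvE
      · exact hW hx
    · exact Finset.mem_insert_of_mem haW
    · rw [Finset.card_insert_of_notMem hvW, hcard]
    · simp [h0]
    · intro t
      rcases lt_trichotomy t t₀ with h | h | h
      · simp only [if_pos h.le, if_pos (show t + 1 ≤ t₀ by omega)]
        exact hw t
      · subst h
        simp only [if_pos le_rfl, if_neg (show ¬ t + 1 ≤ t by omega), if_true]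
        refine ⟨(hw t).1, ?_⟩
        rw [htu]
        exact huv
      · beta_reduce
        rw [if_neg (show ¬ t ≤ t₀ by omega), if_neg (show ¬ t + 1 ≤ t₀ by omega)]
        by_cases h1 : t = t₀ + 1
        · rw [if_pos h1, if_neg (show ¬ t + 1 = t₀ + 1 by omega)]
          refine ⟨hvE, ?_⟩
          have h2 : t + 1 - 2 = t₀ := by omega
          rw [h2, htu]
          exact near_symm huv
        · rw [if_neg h1, if_neg (show ¬ t + 1 = t₀ + 1 by omega)]
          have h2 : t + 1 - 2 = t - 2 + 1 := by omega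
          rw [h2]
          exact hw (t - 2)
    · intro b hb
      rw [Finset.mem_insert] at hb
      rcases hb with rfl | hb
      · exact ⟨t₀ + 1, by omega, by simp⟩
      · obtain ⟨t, ht, htb⟩ := hv b hb
        by_cases h : t ≤ t₀
        · exact ⟨t, by omega, by simp only [if_pos h]; exact htb⟩
        · refine ⟨t + 2, by omega, ?_⟩
          simp only
          rw [if_neg (show ¬ t + 2 ≤ t₀ by omega), if_neg (show ¬ t + 2 = t₀ + 1 by omega)]
          exact htb

theorem t_WALK : S_WALK := by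
  intro E hE a ha
  have hpos : 0 < E.card := Finset.card_pos.2 ⟨a, ha⟩
  obtain ⟨W, w, hW, haW, hcard, h0, hw, hv⟩ := walk_aux hE ha (E.card - 1) (by omega)
  have hWE : W = E := Finset.eq_of_subset_of_card_le hW (by omega)
  subst hWE
  refine ⟨w, h0, hw, fun b hb => ?_⟩
  obtain ⟨t, ht, htb⟩ := hv b hb
  exact ⟨t, by omega, htb⟩

/-- along a walk the coordinates change slowly -/
theorem walk_lip {w : ℕ → Ed} (hw : ∀ t, Near (w t) (w (t + 1))) (j : Fin 3) (s t : ℕ) :
    |(w (s + t)).1 j - (w s).1 j| ≤ t := by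
  induction t with
  | zero => simp
  | succ t ih =>
    have h1 := hw (s + t) j
    have h2 : |(w (s + (t + 1))).1 j - (w s).1 j| ≤ |(w (s + t)).1 j - (w s).1 j| +
        |(w (s + t)).1 j - (w (s + t + 1)).1 j| := by
      rw [← add_assoc, abs_sub_comm ((w (s + t)).1 j) ((w (s + t + 1)).1 j)]
      have := abs_add_le ((w (s + t + 1)).1 j - (w (s + t)).1 j) ((w (s + t)).1 j - (w s).1 j)
      rw [sub_add_sub_cancel] at this
      linarith
    push_cast
    linarith

/-- leaving `D` from the origin in direction `e_0` -/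
theorem exit_pos {D : Finset Pt} (h0 : (0 : Pt) ∈ D) : ∃ j : ℕ,
    ((Pi.single 0 (j : ℤ) : Pt), (0 : Fin 3)) ∈ bd D := by
  by_contra hcon
  push Not at hcon
  have h : ∀ j : ℕ, (Pi.single 0 (j : ℤ) : Pt) ∈ D := by
    intro j
    induction j with
    | zero => simpa using h0
    | succ j ih =>
      have h1 := hcon j
      rw [mem_bd, not_not] at h1
      simp only at h1
      have h2 : (Pi.single 0 (j : ℤ) : Pt) + un 0 = Pi.single 0 ((j + 1 : ℕ) : ℤ) := by
        unfold un
        rw [← Pi.single_add]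
        push_cast
        rfl
      rw [h2] at h1
      exact h1.1 ih
  obtain ⟨x, _, hmax⟩ := exists_max D ⟨0, h0⟩ 0
  have h1 := hmax _ (h ((x 0).toNat + 1))
  rw [Pi.single_eq_same] at h1
  omega

theorem exit_neg {D : Finset Pt} (h0 : (0 : Pt) ∈ D) : ∃ j : ℕ,
    ((Pi.single 0 (-(j : ℤ) - 1) : Pt), (0 : Fin 3)) ∈ bd D := by
  by_contra hcon
  push Not at hcon
  have h : ∀ j : ℕ, (Pi.single 0 (-(j : ℤ)) : Pt) ∈ D := by
    intro j
    induction j with
    | zero => simpa using h0
    | succ j ih =>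
      have h1 := hcon j
      rw [mem_bd, not_not] at h1
      simp only at h1
      have h2 : (Pi.single 0 (-(j : ℤ) - 1) : Pt) + un 0 = Pi.single 0 (-(j : ℤ)) := by
        unfold un
        rw [← Pi.single_add]
        congr 1
        ring
      rw [h2] at h1
      have h3 : (-((j + 1 : ℕ) : ℤ)) = -(j : ℤ) - 1 := by push_cast; ring
      rw [h3]
      exact h1.2 ih
  obtain ⟨x, _, hmin⟩ := exists_min D ⟨0, h0⟩ 0
  have h1 := hmin _ (h ((-(x 0)).toNat + 1))
  rw [Pi.single_eq_same] at h1
  omega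

theorem t_START : S_START := by
  intro D hD
  obtain ⟨j, hj⟩ := exit_pos hD.1
  obtain ⟨k, hk⟩ := exit_neg hD.1
  obtain ⟨w, w0, hw, hv⟩ := t_WALK (bd D) hD.2 _ hj
  obtain ⟨t, ht, htb⟩ := hv _ hk
  refine ⟨j, ?_, hj⟩
  have h1 := walk_lip (fun t => (hw t).2) 0 0 t
  rw [zero_add, htb, w0] at h1
  simp only [Pi.single_eq_same] at h1
  have h2 := abs_le.1 h1
  omega

end Pool.Agent.Q239.SG
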